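import Pool.Agent.TH750.BalMain

/-!
# The bound `n_i ≤ n/3` does not guarantee balanced convex partitions

Q1 asks whether, for `n_i ≤ n/3`, every set of `an` red and `bn` blue points in general position
has an `(n_1,…,n_q)`-balanced partition. The answer is no, for every `a, b ≥ 1`.

Proof. Take eight small clusters of points. Three red clusters with `10a` points each at
`(-1,-1), (1,-2), (2,1)`, and five blue clusters with `9b, 4b, 9b, 4b, 4b` points at
`(-1,0), (1,-9), (2,6), (6,3), (-4,2)` (so `n = 30`); the points are in general position and very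
close to these centres. Let `P_1,…,P_4` be parts with disjoint convex hulls and with
`9a, 9a, 9a, 3a` red and `9b, 9b, 9b, 3b` blue points, and let `S_i` be the set of clusters which
`P_i` meets. Then `S_i` contains every cluster inside a triangle of clusters of `S_i`; no segment
between two clusters of `S_i` crosses a segment between two clusters of `S_j`; no cluster of `S_j`
lies inside a triangle of clusters of `S_i`; and `S_i`, `S_j` have at most two clusters in common.
Finally for every set `T` of parts the clusters of `⋃_{i ∈ T} S_i` contain at least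
`∑_{i ∈ T} n_i` units of each colour. A finite search (about 1000 nodes, evaluated by the kernel:
`Pool/Agent/TH750/BalCheck.lean`) shows that no such `S_1,…,S_4` exist.
-/

set_option autoImplicit false

namespace Pool.Agent.Results.MP_3fef46_co.NoThirdBalancedPartition

open Pool.Agent.TH750.Bal (NoThreeCollinear)

/-- `P` is an `(m_1,…,m_q)`-balanced partition of `R ∪ B`: the parts are pairwise disjoint, their
union is `R ∪ B`, their convex hulls are pairwise disjoint, and the part `P i` has exactly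
`a * m i` red and `b * m i` blue points. -/
structure IsBalancedPartition (a b : ℕ) (R B : Finset (ℝ × ℝ)) {q : ℕ} (m : Fin q → ℕ)
    (P : Fin q → Finset (ℝ × ℝ)) : Prop where
  disjoint : ∀ i j, i ≠ j → Disjoint (P i) (P j)
  union : ∀ x, x ∈ R ∪ B ↔ ∃ i, x ∈ P i
  hull : ∀ i j, i ≠ j → Disjoint (convexHull ℝ (P i : Set (ℝ × ℝ)))
    (convexHull ℝ (P j : Set (ℝ × ℝ)))
  red : ∀ i, (P i ∩ R).card = a * m i
  blue : ∀ i, (P i ∩ B).card = b * m i

/-- The statement asked about in Q1. -/
def Q1 : Prop :=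
  ∀ n a b q : ℕ, 3 ≤ n → 1 ≤ a → 1 ≤ b → 2 ≤ q →
    ∀ R B : Finset (ℝ × ℝ), Disjoint R B → R.card = a * n → B.card = b * n →
      NoThreeCollinear (R ∪ B) →
      ∀ m : Fin q → ℕ, (∀ i, 1 ≤ m i ∧ 3 * m i ≤ n) → ∑ i, m i = n →
        ∃ P : Fin q → Finset (ℝ × ℝ), IsBalancedPartition a b R B m P

/-- The counterexamples: `n = 30 t`, parts `(9t, 9t, 9t, 3t)`, all `a, b, t ≥ 1`. -/
theorem counterexamples (a b t : ℕ) (ha : 1 ≤ a) (hb : 1 ≤ b) (ht : 1 ≤ t) :
    ∃ R B : Finset (ℝ × ℝ), Disjoint R B ∧ R.card = a * (30 * t) ∧ B.card = b * (30 * t) ∧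
      NoThreeCollinear (R ∪ B) ∧
      ¬ ∃ P : Fin 4 → Finset (ℝ × ℝ),
        IsBalancedPartition a b R B ![9 * t, 9 * t, 9 * t, 3 * t] P := by
  obtain ⟨R, B, h1, h2, h3, h4, h5⟩ :=
    Pool.Agent.TH750.Bal.main (a * t) (b * t) (Nat.mul_pos ha ht) (Nat.mul_pos hb ht)
  refine ⟨R, B, h1, by rw [h2]; ring, by rw [h3]; ring, h4, ?_⟩
  rintro ⟨P, hP⟩
  refine h5 P hP.disjoint ?_ hP.hull ?_ ?_
  · ext x
    rw [hP.union x, Finset.mem_biUnion]
    simp
  · intro i
    rw [hP.red i]
    fin_cases i <;> simp [Pool.Agent.TH750.Bal.mm] <;> ring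
  · intro i
    rw [hP.blue i]
    fin_cases i <;> simp [Pool.Agent.TH750.Bal.mm] <;> ring

/-- **The answer to Q1 is negative**, and more precisely for all `a, b, t ≥ 1` there are `30 t a`
red and `30 t b` blue points in general position without a `(9t, 9t, 9t, 3t)`-balanced
partition (`n = 30 t`, so every part is at most `3n/10`). -/
theorem result :
    ¬ Q1 ∧
    ∀ a b t : ℕ, 1 ≤ a → 1 ≤ b → 1 ≤ t →
      ∃ R B : Finset (ℝ × ℝ), Disjoint R B ∧ R.card = a * (30 * t) ∧ B.card = b * (30 * t) ∧
        NoThreeCollinear (R ∪ B) ∧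
        ¬ ∃ P : Fin 4 → Finset (ℝ × ℝ),
          IsBalancedPartition a b R B ![9 * t, 9 * t, 9 * t, 3 * t] P := by
  refine ⟨?_, counterexamples⟩
  intro h
  obtain ⟨R, B, h1, h2, h3, h4, h5⟩ := counterexamples 1 1 1 le_rfl le_rfl le_rfl
  refine h5 (h 30 1 1 4 (by norm_num) le_rfl le_rfl (by norm_num) R B h1 h2 h3 h4
    ![9 * 1, 9 * 1, 9 * 1, 3 * 1] ?_ ?_)
  · intro i
    fin_cases i <;> simp
  · simp [Fin.sum_univ_succ]

end Pool.Agent.Results.MP_3fef46_co.NoThirdBalancedPartition
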